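import Pool.Agent.helper23.CS.Spec

/-!
# Project cs (MP_7c3fb3_pr), row GDL: a measure which satisfies the DLR equations for continuous functions is Gibbs
-/

open Finset Filter Topology MeasureTheory

namespace CS

open CU

section
variable {d : ℕ}

theorem GDL_glue_cont (Λ : Finset (ZSite d)) (η : {x // x ∈ Λ} → Bool) :
    Continuous (fun ω : ZConf d => glue Λ η ω) := by
  refine continuous_pi fun x => ?_
  unfold glue
  by_cases hx : x ∈ Λ
  · simp only [hx, dif_pos]
    exact continuous_const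
  · simp only [hx, dif_neg, not_false_eq_true]
    exact continuous_apply x

theorem GDL_zwt_cont (β h : ℝ) (Λ : Finset (ZSite d)) :
    Continuous (fun σ : ZConf d => zwt β h Λ σ) := by
  have h1 : ∀ x : ZSite d, Continuous fun σ : ZConf d => sg (σ x) := fun x =>
    (continuous_of_discreteTopology (f := sg)).comp (continuous_apply x)
  unfold zwt
  refine Real.continuous_exp.comp ?_
  refine Continuous.add ?_ ?_
  · refine continuous_const.mul (continuous_finset_sum _ fun e _ => ?_)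
    exact (h1 _).mul (h1 _)
  · exact continuous_const.mul (continuous_finset_sum _ fun x _ => h1 x)

theorem GDL_zwt_pos (β h : ℝ) (Λ : Finset (ZSite d)) (σ : ZConf d) : 0 < zwt β h Λ σ :=
  Real.exp_pos _

/-- the normalised weight -/
noncomputable def GDL_p (β : ℝ) (Λ : Finset (ZSite d)) (η : {x // x ∈ Λ} → Bool) (ω : ZConf d) : ℝ :=
  zwt β 0 Λ (glue Λ η ω) / ∑ η' : {x // x ∈ Λ} → Bool, zwt β 0 Λ (glue Λ η' ω)

theorem GDL_Z_pos (β : ℝ) (Λ : Finset (ZSite d)) (ω : ZConf d) :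
    0 < ∑ η' : {x // x ∈ Λ} → Bool, zwt β 0 Λ (glue Λ η' ω) :=
  Finset.sum_pos (fun η' _ => GDL_zwt_pos _ _ _ _) Finset.univ_nonempty

theorem GDL_p_cont (β : ℝ) (Λ : Finset (ZSite d)) (η : {x // x ∈ Λ} → Bool) :
    Continuous (GDL_p β Λ η) := by
  unfold GDL_p
  refine Continuous.div ?_ ?_ ?_
  · exact (GDL_zwt_cont β 0 Λ).comp (GDL_glue_cont Λ η)
  · exact continuous_finset_sum _ fun η' _ => (GDL_zwt_cont β 0 Λ).comp (GDL_glue_cont Λ η')
  · intro ω
    exact (GDL_Z_pos β Λ ω).ne'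

theorem GDL_p_nonneg (β : ℝ) (Λ : Finset (ZSite d)) (η : {x // x ∈ Λ} → Bool) (ω : ZConf d) :
    0 ≤ GDL_p β Λ η ω := div_nonneg (GDL_zwt_pos _ _ _ _).le (GDL_Z_pos β Λ ω).le

theorem GDL_gam (β : ℝ) (Λ : Finset (ZSite d)) (f : ZConf d → ℝ) (ω : ZConf d) :
    gam β 0 Λ f ω = ∑ η : {x // x ∈ Λ} → Bool, GDL_p β Λ η ω * f (glue Λ η ω) := by
  unfold gam GDL_p
  rw [Finset.sum_div]
  exact Finset.sum_congr rfl fun η _ => by ring

theorem GDL_sum_p (β : ℝ) (Λ : Finset (ZSite d)) (ω : ZConf d) :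
    ∑ η : {x // x ∈ Λ} → Bool, GDL_p β Λ η ω = 1 := by
  unfold GDL_p
  rw [← Finset.sum_div]
  exact div_self (GDL_Z_pos β Λ ω).ne'

/-- the measure `μ gam` -/
noncomputable def GDL_nu (β : ℝ) (Λ : Finset (ZSite d)) (μ : Measure (ZConf d)) : Measure (ZConf d) :=
  ∑ η : {x // x ∈ Λ} → Bool,
    (μ.withDensity (fun ω => ENNReal.ofReal (GDL_p β Λ η ω))).map (fun ω => glue Λ η ω)

theorem GDL_gam_meas (β : ℝ) (Λ : Finset (ZSite d)) (A : Set (ZConf d)) (hA : MeasurableSet A) :
    Measurable (fun ω => gam β 0 Λ (A.indicator fun _ => 1) ω) := by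
  simp_rw [GDL_gam]
  refine Finset.measurable_sum _ fun η _ => ?_
  exact (GDL_p_cont β Λ η).measurable.mul
    ((measurable_const.indicator hA).comp (GDL_glue_cont Λ η).measurable)

theorem GDL_gam_bd (β : ℝ) (Λ : Finset (ZSite d)) (A : Set (ZConf d)) (ω : ZConf d) :
    0 ≤ gam β 0 Λ (A.indicator fun _ => 1) ω ∧ gam β 0 Λ (A.indicator fun _ => 1) ω ≤ 1 := by
  have h1 : ∀ σ : ZConf d, 0 ≤ A.indicator (fun _ => (1 : ℝ)) σ ∧
      A.indicator (fun _ => (1 : ℝ)) σ ≤ 1 := by
    intro σ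
    by_cases h : σ ∈ A
    · rw [Set.indicator_of_mem h]
      norm_num
    · rw [Set.indicator_of_notMem h]
      norm_num
  rw [GDL_gam]
  constructor
  · exact Finset.sum_nonneg fun η _ => mul_nonneg (GDL_p_nonneg _ _ _ _) (h1 _).1
  · calc ∑ η : {x // x ∈ Λ} → Bool, GDL_p β Λ η ω * A.indicator (fun _ => (1 : ℝ)) (glue Λ η ω)
        ≤ ∑ η : {x // x ∈ Λ} → Bool, GDL_p β Λ η ω * 1 :=
          Finset.sum_le_sum fun η _ => mul_le_mul_of_nonneg_left (h1 _).2 (GDL_p_nonneg _ _ _ _)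
      _ = 1 := by
          simp_rw [mul_one]
          exact GDL_sum_p β Λ ω

theorem GDL_nu_apply (β : ℝ) (Λ : Finset (ZSite d)) (μ : Measure (ZConf d)) [IsProbabilityMeasure μ]
    (A : Set (ZConf d)) (hA : MeasurableSet A) :
    GDL_nu β Λ μ A = ENNReal.ofReal (∫ ω, gam β 0 Λ (A.indicator fun _ => 1) ω ∂μ) := by
  have hint : Integrable (fun ω => gam β 0 Λ (A.indicator fun _ => 1) ω) μ := by
    refine Integrable.of_bound (GDL_gam_meas β Λ A hA).aestronglyMeasurable 1 ?_
    refine Filter.Eventually.of_forall fun ω => ?_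
    rw [Real.norm_eq_abs, abs_of_nonneg (GDL_gam_bd β Λ A ω).1]
    exact (GDL_gam_bd β Λ A ω).2
  rw [ofReal_integral_eq_lintegral_ofReal hint
    (Filter.Eventually.of_forall fun ω => (GDL_gam_bd β Λ A ω).1)]
  unfold GDL_nu
  rw [Measure.finset_sum_apply]
  have h1 : ∀ η : {x // x ∈ Λ} → Bool,
      ((μ.withDensity (fun ω => ENNReal.ofReal (GDL_p β Λ η ω))).map (fun ω => glue Λ η ω)) A =
        ∫⁻ ω, ENNReal.ofReal (GDL_p β Λ η ω * A.indicator (fun _ => (1 : ℝ)) (glue Λ η ω)) ∂μ := by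
    intro η
    have hg : Measurable (fun ω : ZConf d => glue Λ η ω) := (GDL_glue_cont Λ η).measurable
    rw [Measure.map_apply hg hA, withDensity_apply _ (hg hA), ← lintegral_indicator (hg hA)]
    refine lintegral_congr fun ω => ?_
    by_cases h : glue Λ η ω ∈ A
    · rw [Set.indicator_of_mem (show ω ∈ (fun ω => glue Λ η ω) ⁻¹' A from h),
        Set.indicator_of_mem h, mul_one]
    · rw [Set.indicator_of_notMem (show ω ∉ (fun ω => glue Λ η ω) ⁻¹' A from h),
        Set.indicator_of_notMem h, mul_zero, ENNReal.ofReal_zero]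
  rw [Finset.sum_congr rfl fun η _ => h1 η, ← lintegral_finset_sum]
  · refine lintegral_congr fun ω => ?_
    rw [GDL_gam, ENNReal.ofReal_sum_of_nonneg]
    intro η _
    refine mul_nonneg (GDL_p_nonneg _ _ _ _) ?_
    exact Set.indicator_nonneg (fun _ _ => zero_le_one) _
  · intro η _
    exact ENNReal.measurable_ofReal.comp ((GDL_p_cont β Λ η).measurable.mul
      ((measurable_const.indicator hA).comp (GDL_glue_cont Λ η).measurable))

theorem GDL_clopen (S : Finset (ZSite d)) : IsClopen {σ : ZConf d | ∀ x ∈ S, σ x = true} := by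
  have h1 : {σ : ZConf d | ∀ x ∈ S, σ x = true} = ⋂ x ∈ S, {σ : ZConf d | σ x = true} := by
    ext σ
    simp
  rw [h1]
  refine isClopen_biInter_finset fun x _ => ?_
  exact (isClopen_discrete ({true} : Set Bool)).preimage (continuous_apply x)

end

theorem GDL (hVP : CU.VP_stmt) : GDL_stmt := by
  intro d β μ hμ h
  refine ⟨hμ, ?_⟩
  intro Λ A hA
  have hreal : ∀ B : Set (ZConf d), MeasurableSet B →
      (GDL_nu β Λ μ).real B = ∫ ω, gam β 0 Λ (B.indicator fun _ => 1) ω ∂μ := by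
    intro B hB
    rw [Measure.real, GDL_nu_apply β Λ μ B hB, ENNReal.toReal_ofReal]
    exact integral_nonneg fun ω => (GDL_gam_bd β Λ B ω).1
  have hprob : IsProbabilityMeasure (GDL_nu β Λ μ) := by
    refine ⟨?_⟩
    rw [GDL_nu_apply β Λ μ Set.univ MeasurableSet.univ]
    have h1 : ∀ ω, gam β 0 Λ (Set.univ.indicator fun _ => 1) ω = 1 := by
      intro ω
      rw [GDL_gam]
      simp only [Set.indicator_univ, mul_one]
      exact GDL_sum_p β Λ ω
    simp_rw [h1]
    simp
  have heq : GDL_nu β Λ μ = μ := by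
    refine hVP d (GDL_nu β Λ μ) μ hprob hμ ?_
    intro S
    have hcl := GDL_clopen S
    have hms : MeasurableSet {σ : ZConf d | ∀ x ∈ S, σ x = true} := hcl.isClosed.measurableSet
    rw [hreal _ hms]
    have hcont : Continuous ({σ : ZConf d | ∀ x ∈ S, σ x = true}.indicator fun _ => (1 : ℝ)) := by
      exact continuous_const.indicator (by
        rw [hcl.frontier_eq]
        intro a ha
        exact absurd ha (Set.notMem_empty a))
    rw [h Λ _ hcont, integral_indicator_const _ hms]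
    simp
  rw [← hreal A hA, heq]

end CS
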